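import Mathlib

set_option autoImplicit false

namespace Pool.Agent.TH401.PermCount

open Finset Equiv

variable {n : ℕ}

/-- number of permutations with `σ a = b` does not depend on `b` -/
lemma card_fix_eq (a b b' : Fin n) :
    (univ.filter fun σ : Perm (Fin n) => σ a = b).card
      = (univ.filter fun σ : Perm (Fin n) => σ a = b').card := by
  apply Finset.card_bij (fun σ _ => swap b b' * σ)
  · intro σ hσ
    simp only [mem_filter, mem_univ, true_and] at hσ ⊢
    simp [hσ]
  · intro σ _ τ _ h
    exact mul_left_cancel h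
  · intro τ hτ
    simp only [mem_filter, mem_univ, true_and] at hτ
    refine ⟨swap b b' * τ, ?_, ?_⟩
    · simp [hτ]
    · simp [← mul_assoc]

lemma card_fix (a b : Fin n) :
    n * (univ.filter fun σ : Perm (Fin n) => σ a = b).card = n.factorial := by
  have h1 : (univ : Finset (Perm (Fin n))).card = ∑ c : Fin n, (univ.filter fun σ : Perm (Fin n) => σ a = c).card := by
    apply Finset.card_eq_sum_card_fiberwise
    intro σ _
    simp
  rw [Finset.sum_congr rfl (fun c _ => card_fix_eq a c b), Finset.sum_const, Finset.card_univ,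
    Finset.card_univ, Fintype.card_perm, Fintype.card_fin] at h1
  simpa using h1.symm

lemma card_fix2_eq {a a' : Fin n} {b c c' : Fin n} (h1 : c ≠ b) (h2 : c' ≠ b) :
    (univ.filter fun σ : Perm (Fin n) => σ a = b ∧ σ a' = c).card
      = (univ.filter fun σ : Perm (Fin n) => σ a = b ∧ σ a' = c').card := by
  apply Finset.card_bij (fun σ _ => swap c c' * σ)
  · intro σ hσ
    simp only [mem_filter, mem_univ, true_and] at hσ ⊢
    simp [hσ.1, hσ.2, Equiv.swap_apply_of_ne_of_ne h1.symm h2.symm]
  · intro σ _ τ _ h
    exact mul_left_cancel h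
  · intro τ hτ
    simp only [mem_filter, mem_univ, true_and] at hτ
    refine ⟨swap c c' * τ, ?_, ?_⟩
    · simp [hτ.1, hτ.2, Equiv.swap_apply_of_ne_of_ne h1.symm h2.symm]
    · simp [← mul_assoc]

lemma card_fix2 {a a' : Fin n} (ha : a ≠ a') {b c : Fin n} (h1 : c ≠ b) :
    (n - 1) * (univ.filter fun σ : Perm (Fin n) => σ a = b ∧ σ a' = c).card
      = (univ.filter fun σ : Perm (Fin n) => σ a = b).card := by
  have h2 : (univ.filter fun σ : Perm (Fin n) => σ a = b).card
      = ∑ c' ∈ univ.erase b, ((univ.filter fun σ : Perm (Fin n) => σ a = b).filter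
          fun σ => σ a' = c').card := by
    apply Finset.card_eq_sum_card_fiberwise
    intro σ hσ
    simp only [coe_filter, mem_univ, true_and, Set.mem_ofPred_eq] at hσ
    simp only [coe_erase, coe_univ, Set.mem_sdiff, Set.mem_univ, Set.mem_singleton_iff, true_and]
    intro h
    exact ha (σ.injective (hσ.trans h.symm))
  rw [h2]
  have h3 : ∀ c' ∈ univ.erase b, ((univ.filter fun σ : Perm (Fin n) => σ a = b).filter
          fun σ => σ a' = c').card = (univ.filter fun σ : Perm (Fin n) => σ a = b ∧ σ a' = c).card := by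
    intro c' hc'
    rw [Finset.filter_filter]
    exact card_fix2_eq (Finset.ne_of_mem_erase hc') h1
  rw [Finset.sum_congr rfl h3, Finset.sum_const, Finset.card_erase_of_mem (mem_univ _)]
  simp

end Pool.Agent.TH401.PermCount
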