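import Pool.Agent.TH176.FB.Base

/-!
Restriction of forms to a hyperplane and multiplication by a linear form.
-/

set_option autoImplicit false

namespace Pool.Agent.TH401.WL

open MvPolynomial Finset Pool.Agent.TH206.Fro Pool.Agent.TH176.FB

variable {K : Type} [Field K] {N : ℕ}

/-- The restriction of polynomials to the hyperplane `X 0 = 0`. -/
noncomputable def res (K : Type) [Field K] (N : ℕ) :
    MvPolynomial (Fin (N + 1)) K →ₐ[K] MvPolynomial (Fin N) K :=
  aeval (Fin.cases 0 X)

lemma res_X0 : res K N (X 0) = 0 := by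
  simp [res]

lemma res_rename (g : MvPolynomial (Fin N) K) : res K N (rename Fin.succ g) = g := by
  unfold res
  rw [aeval_rename]
  have h : (Fin.cases 0 X : Fin (N + 1) → MvPolynomial (Fin N) K) ∘ Fin.succ = X := by
    funext i
    rfl
  rw [h, aeval_X_left, AlgHom.id_apply]

lemma res_surj : Function.Surjective (res K N) := fun g => ⟨_, res_rename g⟩

lemma sub_rename_res (g : MvPolynomial (Fin (N + 1)) K) :
    g - rename Fin.succ (res K N g) ∈ Ideal.span {(X 0 : MvPolynomial (Fin (N + 1)) K)} := by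
  induction g using MvPolynomial.induction_on with
  | C a =>
    have h : res K N (C a) = C a := by
      unfold res
      rw [aeval_C]
      rfl
    rw [h, rename_C, sub_self]
    exact Ideal.zero_mem _
  | add p q hp hq =>
    have h : p + q - rename Fin.succ (res K N (p + q)) =
        (p - rename Fin.succ (res K N p)) + (q - rename Fin.succ (res K N q)) := by
      rw [map_add, map_add]
      ring
    rw [h]
    exact Ideal.add_mem _ hp hq
  | mul_X p i hp =>
    rw [map_mul, map_mul]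
    induction i using Fin.cases with
    | zero =>
      rw [res_X0, map_zero, mul_zero, sub_zero]
      exact Ideal.mul_mem_left _ _ (Ideal.mem_span_singleton_self _)
    | succ i =>
      have h : rename Fin.succ (res K N (X i.succ)) = (X i.succ : MvPolynomial (Fin (N + 1)) K) := by
        unfold res
        rw [aeval_X]
        show rename Fin.succ (X i) = _
        rw [rename_X]
      rw [h, ← sub_mul]
      exact Ideal.mul_mem_right _ _ hp

lemma X_dvd_of_res (g : MvPolynomial (Fin (N + 1)) K) (h : res K N g = 0) :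
    ∃ q, g = X 0 * q := by
  have h1 := sub_rename_res g
  rw [h, map_zero, sub_zero, Ideal.mem_span_singleton] at h1
  obtain ⟨q, hq⟩ := h1
  exact ⟨q, hq⟩

lemma res_hom {m : ℕ} {g : MvPolynomial (Fin (N + 1)) K} (hg : g.IsHomogeneous m) :
    (res K N g).IsHomogeneous m := by
  have h := hg.aeval (n := 1) (Fin.cases 0 X : Fin (N + 1) → MvPolynomial (Fin N) K) (by
    intro i
    induction i using Fin.cases with
    | zero => exact isHomogeneous_zero _ _ _
    | succ i => exact isHomogeneous_X _ _)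
  rwa [one_mul] at h

lemma hom_of_X_mul {m : ℕ} {g : MvPolynomial (Fin (N + 1)) K}
    (h : (X 0 * g).IsHomogeneous (m + 1)) : g.IsHomogeneous m := by
  intro a ha
  have h1 : coeff (Finsupp.single 0 1 + a) (X 0 * g) ≠ 0 := by
    rwa [coeff_X_mul]
  have h2 := h h1
  rw [map_add] at h2
  have h3 : Finsupp.weight 1 (Finsupp.single (0 : Fin (N + 1)) 1) = 1 := by
    simp [Finsupp.weight_apply]
  rw [h3] at h2
  omega

lemma coeff_res (g : MvPolynomial (Fin (N + 1)) K) (m : Fin N →₀ ℕ) :
    coeff m (res K N g) = coeff (m.mapDomain Fin.succ) g := by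
  classical
  have h1 := sub_rename_res g
  rw [Ideal.mem_span_singleton] at h1
  obtain ⟨q, hq⟩ := h1
  have h2 : g = rename Fin.succ (res K N g) + X 0 * q := by
    rw [← hq]
    ring
  conv_rhs => rw [h2]
  rw [coeff_add, coeff_rename_mapDomain _ (Fin.succ_injective N), coeff_X_mul', if_neg, add_zero]
  rw [Finsupp.mem_support_iff, not_not]
  apply Finsupp.mapDomain_of_notMem_range
  rintro ⟨i, hi⟩
  exact Fin.succ_ne_zero i hi

/-- The homogeneous components of the elements of the ideal. -/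
lemma comp_mem {r : ℕ} {d : Fin r → ℕ} {f : Fin r → MvPolynomial (Fin N) K}
    (hf : ∀ i, (f i).IsHomogeneous (d i)) {x : MvPolynomial (Fin N) K}
    (hx : x ∈ Ideal.span (Set.range f)) (m : ℕ) :
    homogeneousComponent m x ∈ Ideal.span (Set.range f) := by
  rw [Ideal.mem_span_range_iff_exists_fun] at hx
  obtain ⟨c, rfl⟩ := hx
  rw [map_sum]
  refine Ideal.sum_mem _ fun i _ => ?_
  rw [hc_mul' (hf i) (c i) m]
  split_ifs
  · exact Ideal.mul_mem_left _ _ (Ideal.subset_span ⟨i, rfl⟩)
  · exact Ideal.zero_mem _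

lemma mem_res_iff {r : ℕ} (f : Fin r → MvPolynomial (Fin (N + 1)) K)
    (y : MvPolynomial (Fin N) K) :
    y ∈ Ideal.span (Set.range fun i => res K N (f i)) ↔
      ∃ x ∈ Ideal.span (Set.range f), res K N x = y := by
  have h : Ideal.span (Set.range fun i => res K N (f i)) =
      Ideal.map (res K N).toRingHom (Ideal.span (Set.range f)) := by
    rw [Ideal.map_span, ← Set.range_comp]
    rfl
  rw [h, Ideal.mem_map_iff_of_surjective _ (by exact res_surj)]
  rfl

/-- Lifting a form of the restricted ideal. -/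
lemma lift_form {r : ℕ} {d : Fin r → ℕ} {f : Fin r → MvPolynomial (Fin (N + 1)) K}
    (hf : ∀ i, (f i).IsHomogeneous (d i)) {m : ℕ} {y : MvPolynomial (Fin N) K}
    (hy : y ∈ ik (fun i => res K N (f i)) m) : ∃ x ∈ ik f m, res K N x = y := by
  obtain ⟨h1, h2⟩ := hy
  have h1' : y ∈ Ideal.span (Set.range fun i => res K N (f i)) := h1
  rw [Ideal.mem_span_range_iff_exists_fun] at h1'
  obtain ⟨c, hc⟩ := h1'
  have h3 : y = homogeneousComponent m y := by
    rw [homogeneousComponent_of_mem h2, if_pos rfl]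
  rw [← hc, map_sum] at h3
  refine ⟨∑ i, (if d i ≤ m then rename Fin.succ (homogeneousComponent (m - d i) (c i)) else 0) * f i,
    ⟨?_, ?_⟩, ?_⟩
  · show _ ∈ Ideal.span (Set.range f)
    exact Ideal.sum_mem _ fun i _ => Ideal.mul_mem_left _ _ (Ideal.subset_span ⟨i, rfl⟩)
  · refine Submodule.sum_mem _ fun i _ => ?_
    split_ifs with h
    · have h4 := ((homogeneousComponent_isHomogeneous (m - d i) (c i)).rename_isHomogeneous
        (f := Fin.succ)).mul (hf i)
      rw [Nat.sub_add_cancel h] at h4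
      exact h4
    · rw [zero_mul]
      exact Submodule.zero_mem _
  · rw [map_sum, ← hc, h3]
    refine Finset.sum_congr rfl fun i _ => ?_
    rw [hc_mul' (res_hom (hf i)) (c i) m, map_mul]
    split_ifs with h
    · rw [res_rename]
    · rw [map_zero, zero_mul]

/-- Surjectivity of the multiplication. -/
theorem surj_one {r : ℕ} {d : Fin r → ℕ} {f : Fin r → MvPolynomial (Fin (N + 1)) K}
    (hf : ∀ i, (f i).IsHomogeneous (d i)) {m : ℕ}
    (htop : homogeneousSubmodule (Fin N) K (m + 1) ≤ ik (fun i => res K N (f i)) (m + 1))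
    {h : MvPolynomial (Fin (N + 1)) K} (hh : h.IsHomogeneous (m + 1)) :
    ∃ g : MvPolynomial (Fin (N + 1)) K, g.IsHomogeneous m ∧
      h - X 0 * g ∈ Ideal.span (Set.range f) := by
  obtain ⟨x, hx, hx2⟩ := lift_form hf (htop ((mem_homogeneousSubmodule _ _).2 (res_hom hh)))
  obtain ⟨q, hq⟩ := X_dvd_of_res (h - x) (by rw [map_sub, hx2, sub_self])
  refine ⟨q, hom_of_X_mul (by rw [← hq]; exact hh.sub hx.2), ?_⟩
  rw [← hq, sub_sub_cancel]
  exact hx.1

theorem surj_pow {r : ℕ} {d : Fin r → ℕ} {f : Fin r → MvPolynomial (Fin (N + 1)) K}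
    (hf : ∀ i, (f i).IsHomogeneous (d i)) {m : ℕ}
    (htop : ∀ m', m + 1 ≤ m' →
      homogeneousSubmodule (Fin N) K m' ≤ ik (fun i => res K N (f i)) m') (e : ℕ) :
    ∀ h : MvPolynomial (Fin (N + 1)) K, h.IsHomogeneous (m + e) →
    ∃ g : MvPolynomial (Fin (N + 1)) K, g.IsHomogeneous m ∧
      h - X 0 ^ e * g ∈ Ideal.span (Set.range f) := by
  induction e with
  | zero =>
    intro h hh
    exact ⟨h, hh, by rw [pow_zero, one_mul, sub_self]; exact Ideal.zero_mem _⟩
  | succ e ih =>
    intro h hh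
    obtain ⟨g1, hg1, hg1'⟩ := surj_one hf (m := m + e) (htop _ (by omega)) hh
    obtain ⟨g, hg, hg'⟩ := ih g1 hg1
    refine ⟨g, hg, ?_⟩
    have h1 : h - X 0 ^ (e + 1) * g = (h - X 0 * g1) + X 0 * (g1 - X 0 ^ e * g) := by ring
    rw [h1]
    exact Ideal.add_mem _ hg1' (Ideal.mul_mem_left _ _ hg')

/-- The forms of degree `m` whose product with `X 0` lies in the ideal. -/
noncomputable def col {r : ℕ} (f : Fin r → MvPolynomial (Fin (N + 1)) K) (m : ℕ) :
    Submodule K (MvPolynomial (Fin (N + 1)) K) :=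
  Submodule.comap (LinearMap.mulLeft K (X 0))
      (Submodule.restrictScalars K (Ideal.span (Set.range f))) ⊓
    homogeneousSubmodule (Fin (N + 1)) K m

lemma mem_col {r : ℕ} {f : Fin r → MvPolynomial (Fin (N + 1)) K} {m : ℕ}
    {g : MvPolynomial (Fin (N + 1)) K} :
    g ∈ col f m ↔ X 0 * g ∈ Ideal.span (Set.range f) ∧ g.IsHomogeneous m := Iff.rfl

lemma ik_le_col {r : ℕ} (f : Fin r → MvPolynomial (Fin (N + 1)) K) (m : ℕ) :
    ik f m ≤ col f m := by
  rintro g ⟨h1, h2⟩
  exact ⟨Ideal.mul_mem_left _ _ h1, h2⟩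

instance {r : ℕ} (f : Fin r → MvPolynomial (Fin (N + 1)) K) (m : ℕ) :
    FiniteDimensional K (col f m) :=
  Submodule.finiteDimensional_of_le (inf_le_right : col f m ≤ _)

instance {n r : ℕ} (f : Fin r → MvPolynomial (Fin n) K) (m : ℕ) :
    FiniteDimensional K (ik f m) :=
  Submodule.finiteDimensional_of_le (inf_le_right : ik f m ≤ _)

/-- The exact sequence of dimensions. -/
theorem finrank_seq {r : ℕ} {d : Fin r → ℕ} {f : Fin r → MvPolynomial (Fin (N + 1)) K}
    (hf : ∀ i, (f i).IsHomogeneous (d i)) (m : ℕ) :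
    Module.finrank K (ik (fun i => res K N (f i)) (m + 1)) + Module.finrank K (col f m) ≤
      Module.finrank K (ik f (m + 1)) := by
  let T : ik f (m + 1) →ₗ[K] MvPolynomial (Fin N) K :=
    (res K N).toLinearMap.domRestrict (ik f (m + 1))
  have h1 := T.finrank_range_add_finrank_ker
  have h2 : ik (fun i => res K N (f i)) (m + 1) ≤ LinearMap.range T := by
    intro y hy
    obtain ⟨x, hx, hxy⟩ := lift_form hf hy
    exact ⟨⟨x, hx⟩, hxy⟩
  have h3 := Submodule.finrank_mono h2
  have hinj : Function.Injective (LinearMap.mulLeft K (X 0 : MvPolynomial (Fin (N + 1)) K)) :=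
    fun a b h => mul_left_cancel₀ (X_ne_zero (R := K) (0 : Fin (N + 1))) h
  have hkey : ∀ x : MvPolynomial (Fin (N + 1)) K, x ∈ ik f (m + 1) → res K N x = 0 →
      x ∈ (LinearMap.ker T).map (ik f (m + 1)).subtype :=
    fun x hx h => ⟨⟨x, hx⟩, h, rfl⟩
  have hmul : ∀ g : MvPolynomial (Fin (N + 1)) K, g ∈ col f m → X 0 * g ∈ ik f (m + 1) := by
    intro g hg
    have h := (isHomogeneous_X K (0 : Fin (N + 1))).mul (mem_col.1 hg).2
    rw [Nat.add_comm 1 m] at h
    exact Submodule.mem_inf.2 ⟨(mem_col.1 hg).1, (mem_homogeneousSubmodule _ _).2 h⟩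
  have h4 : (col f m).map (LinearMap.mulLeft K (X 0)) ≤
      (LinearMap.ker T).map (ik f (m + 1)).subtype := by
    intro y hy
    obtain ⟨g, hg, rfl⟩ := Submodule.mem_map.1 hy
    rw [LinearMap.mulLeft_apply]
    refine hkey _ (hmul g hg) ?_
    rw [map_mul, res_X0, zero_mul]
  have h5 := Submodule.finrank_mono h4
  have h6 := (Submodule.equivMapOfInjective _ hinj (col f m)).finrank_eq
  have h7 := Submodule.finrank_map_subtype_eq (ik f (m + 1)) (LinearMap.ker T)
  omega

lemma mon_pascal (N t : ℕ) (hN : 1 ≤ N) :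
    (Mon (N + 1) (t + 1)).card = (Mon N (t + 1)).card + (Mon (N + 1) t).card := by
  rw [card_Mon, card_Mon, card_Mon]
  obtain ⟨M, rfl⟩ : ∃ M, N = M + 1 := ⟨N - 1, by omega⟩
  have e1 : M + 1 + 1 + (t + 1) - 1 = (M + t + 1) + 1 := by omega
  have e2 : M + 1 + (t + 1) - 1 = M + t + 1 := by omega
  have e3 : M + 1 + 1 + t - 1 = M + t + 1 := by omega
  rw [e1, e2, e3, Nat.choose_succ_succ, add_comm]

lemma mon_zero (N : ℕ) : (Mon N 0).card = 1 := by
  rw [card_Mon, Nat.choose_zero_right]

lemma ro_pascal (N r m : ℕ) (hN : 1 ≤ N) (d : Fin r → ℕ) :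
    Fintype.card (Ro (N + 1) (m + 1) d) =
      Fintype.card (Ro N (m + 1) d) + Fintype.card (Ro (N + 1) m d) := by
  rw [card_Ro, card_Ro, card_Ro, ← Finset.sum_add_distrib]
  refine Finset.sum_congr rfl fun i _ => ?_
  rcases lt_trichotomy (d i) (m + 1) with h | h | h
  · rw [if_pos h.le, if_pos h.le, if_pos (by omega)]
    have e : m + 1 - d i = (m - d i) + 1 := by omega
    rw [e, mon_pascal N _ hN]
  · rw [if_pos h.le, if_pos h.le, if_neg (by omega), h, Nat.sub_self, mon_zero, mon_zero]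
  · rw [if_neg (by omega), if_neg (by omega), if_neg (by omega)]

/-- Injectivity of the multiplication. -/
theorem inj_dim {r : ℕ} {d : Fin r → ℕ} (hN : 1 ≤ N) (hd : ∀ i, 1 ≤ d i)
    {f : Fin r → MvPolynomial (Fin (N + 1)) K}
    (hf : ∀ i, (f i).IsHomogeneous (d i)) (M : ℕ)
    (h : ∀ m < M, Fintype.card (Ro N m d) ≤
      Module.finrank K (ik (fun i => res K N (f i)) m)) :
    ∀ m < M, Fintype.card (Ro (N + 1) m d) ≤ Module.finrank K (ik f m) := by
  intro m
  induction m with
  | zero =>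
    intro _
    rw [card_Ro]
    rw [Finset.sum_eq_zero]
    · exact Nat.zero_le _
    · intro i _
      have := hd i
      rw [if_neg (by omega)]
  | succ m ih =>
    intro hm
    have h1 := ih (by omega)
    have h2 := h (m + 1) hm
    have h3 := finrank_seq hf m
    have h4 := Submodule.finrank_mono (ik_le_col f m)
    rw [ro_pascal N r m hN d]
    omega

theorem inj_one {r : ℕ} {d : Fin r → ℕ} (hN : 1 ≤ N) (hd : ∀ i, 1 ≤ d i)
    {f : Fin r → MvPolynomial (Fin (N + 1)) K}
    (hf : ∀ i, (f i).IsHomogeneous (d i)) (M : ℕ)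
    (h : ∀ m < M, Fintype.card (Ro N m d) ≤
      Module.finrank K (ik (fun i => res K N (f i)) m))
    (m : ℕ) (hm : m + 1 < M) (g : MvPolynomial (Fin (N + 1)) K) (hg : g.IsHomogeneous m)
    (hg2 : X 0 * g ∈ Ideal.span (Set.range f)) : g ∈ Ideal.span (Set.range f) := by
  have h1 := inj_dim hN hd hf M h m (by omega)
  have h2 := h (m + 1) hm
  have h3 := finrank_seq hf m
  have h4 := (finrank_ik_le K (N + 1) r (m + 1) d f hf).trans (min_le_left _ _)
  rw [ro_pascal N r m hN d] at h4
  have h5 : ik f m = col f m :=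
    Submodule.eq_of_le_of_finrank_le (ik_le_col f m) (by omega)
  have h6 : g ∈ col f m := ⟨hg2, hg⟩
  rw [← h5] at h6
  exact h6.1

theorem inj_pow {r : ℕ} {d : Fin r → ℕ} (hN : 1 ≤ N) (hd : ∀ i, 1 ≤ d i)
    {f : Fin r → MvPolynomial (Fin (N + 1)) K}
    (hf : ∀ i, (f i).IsHomogeneous (d i)) (M : ℕ)
    (h : ∀ m < M, Fintype.card (Ro N m d) ≤
      Module.finrank K (ik (fun i => res K N (f i)) m))
    (m e : ℕ) (hm : m + e < M) (g : MvPolynomial (Fin (N + 1)) K) (hg : g.IsHomogeneous m)
    (hg2 : X 0 ^ e * g ∈ Ideal.span (Set.range f)) : g ∈ Ideal.span (Set.range f) := by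
  induction e with
  | zero => rwa [pow_zero, one_mul] at hg2
  | succ e ih =>
    refine ih (by omega) (inj_one hN hd hf M h (m + e) (by omega) (X 0 ^ e * g) ?_ ?_)
    · have h1 := ((isHomogeneous_X K (0 : Fin (N + 1))).pow e).mul hg
      rw [one_mul, Nat.add_comm e m] at h1
      exact h1
    · rwa [← mul_assoc, ← pow_succ']

/-- Pulling back a condition on the restricted forms. -/
theorem pull_back {r : ℕ} (d : Fin r → ℕ) (Q : MvPolynomial (Io N d) K) (hQ : Q ≠ 0) :
    ∃ P : MvPolynomial (Io (N + 1) d) K, P ≠ 0 ∧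
      ∀ f : Fin r → MvPolynomial (Fin (N + 1)) K,
        MvPolynomial.eval (fun s : Io (N + 1) d => (f s.1).coeff s.2.1) P =
          MvPolynomial.eval (fun s : Io N d => (res K N (f s.1)).coeff s.2.1) Q := by
  let φ : Io N d → Io (N + 1) d := fun s => ⟨s.1, ⟨s.2.1.mapDomain Fin.succ, by
    rw [Finsupp.degree_mapDomain]
    exact s.2.2⟩⟩
  have hφ : Function.Injective φ := by
    rintro ⟨i, a, ha⟩ ⟨j, b, hb⟩ h
    obtain rfl : i = j := congrArg Sigma.fst h
    have h1 := eq_of_heq (Sigma.mk.inj h).2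
    have h2 : a.mapDomain Fin.succ = b.mapDomain Fin.succ := congrArg Subtype.val h1
    have h3 := Finsupp.mapDomain_injective (Fin.succ_injective N) h2
    subst h3
    rfl
  refine ⟨rename φ Q, fun h => hQ ?_, fun f => ?_⟩
  · exact rename_injective φ hφ (by rw [h, map_zero])
  · rw [eval_rename]
    congr 2
    funext s
    exact (coeff_res (f s.1) s.2.1).symm

end Pool.Agent.TH401.WL
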