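import Pool.Agent.TH176.RK.Fro2
import Pool.Agent.TH401.WL1

/-!
Multiplication by a linear form on the quotient by many generic forms.
-/

set_option autoImplicit false

namespace Pool.Agent.TH401.WL

open MvPolynomial Finset Pool.Agent.TH206.Fro Pool.Agent.TH176.FB Pool.Agent.TH176.RK

/-- The products of generic forms with the monomials are linearly independent in degree `D`. -/
def InjG (K : Type) [Field K] (N : ℕ) {r : ℕ} (d : Fin r → ℕ) (D : ℕ) : Prop :=
  ∃ P : MvPolynomial (Io N d) K, P ≠ 0 ∧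
    ∀ f : Fin r → MvPolynomial (Fin N) K, (∀ i, (f i).IsHomogeneous (d i)) →
      MvPolynomial.eval (fun s : Io N d => (f s.1).coeff s.2.1) P ≠ 0 →
      Fintype.card (Ro N D d) ≤ Module.finrank K (ik f D)

/-- Generic forms generate all forms of degree `D`. -/
def SurG (K : Type) [Field K] (N : ℕ) {r : ℕ} (d : Fin r → ℕ) (D : ℕ) : Prop :=
  ∃ P : MvPolynomial (Io N d) K, P ≠ 0 ∧
    ∀ f : Fin r → MvPolynomial (Fin N) K, (∀ i, (f i).IsHomogeneous (d i)) →
      MvPolynomial.eval (fun s : Io N d => (f s.1).coeff s.2.1) P ≠ 0 →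
      (Mon N D).card ≤ Module.finrank K (ik f D)

lemma injG_small (K : Type) [Field K] (N : ℕ) {r : ℕ} (d : Fin r → ℕ) (D : ℕ)
    (h : ∀ i, D < d i) : InjG K N d D := by
  refine ⟨1, one_ne_zero, fun f _ _ => ?_⟩
  have h1 : Fintype.card (Ro N D d) = 0 := by
    rw [card_Ro]
    refine Finset.sum_eq_zero fun i _ => if_neg ?_
    have := h i
    omega
  rw [h1]
  exact Nat.zero_le _

lemma cond_or (K : Type) [Field K] (N : ℕ) (hN : 1 ≤ N) {r : ℕ} (d : Fin r → ℕ) (D : ℕ)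
    (hD : ∀ i, D < 2 * d i) (hc : ∀ i, d i ≤ D → Cond N (D - d i) (d i)) :
    InjG K N d D ∨ SurG K N d D := by
  classical
  obtain ⟨P, hP, hP2⟩ := rank_eval N D r d K hN (fun i hi =>
    subM_of_monM init_thm (Cond.monM hN (by have := hD i; omega) (hc i hi)))
  rcases le_total (Fintype.card (Ro N D d)) (Mon N D).card with h | h
  · refine Or.inl ⟨P, hP, fun f hf hfP => ?_⟩
    have h1 := hP2 _ hfP
    rw [min_eq_left h] at h1
    unfold ik
    rw [hilb_thm N D r d K f hf, h1]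
  · refine Or.inr ⟨P, hP, fun f hf hfP => ?_⟩
    have h1 := hP2 _ hfP
    rw [min_eq_right h] at h1
    unfold ik
    rw [hilb_thm N D r d K f hf, h1]

/-- The sum of the multiplicities. -/
lemma exc_of {j r δ s : ℕ} {d : Fin r → ℕ} {u : ℝ} (hup : 0 < u) (hu : u ^ (j + 2) = r)
    (hd : ∀ i, δ ≤ d i) (hs : ∀ i, d i ≤ δ + s) (k : ℕ)
    (hB : ¬ u ^ (j + 1) * k < ∑ i, ((k + 1 - d i : ℕ) : ℝ)) :
    u * ((k : ℝ) + 1 - δ - s) ≤ k := by
  by_contra hcon
  push Not at hcon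
  apply hB
  have h1 := Big.sum_lb (k := k) (δ := δ) (s := s) (d := d) (fun i => ⟨hd i, hs i⟩)
  have h2 : ((r * (k + 1 - (δ + s)) : ℕ) : ℝ) ≤ ((∑ i, (k + 1 - d i) : ℕ) : ℝ) := by
    exact_mod_cast h1
  have h3 : (k : ℝ) + 1 - δ - s ≤ ((k + 1 - (δ + s) : ℕ) : ℝ) := by
    rcases le_total (δ + s) (k + 1) with h | h
    · rw [Nat.cast_sub h]
      push_cast
      linarith
    · have : ((k + 1 : ℕ) : ℝ) ≤ ((δ + s : ℕ) : ℝ) := by exact_mod_cast h
      push_cast at this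
      have h0 : (0 : ℝ) ≤ ((k + 1 - (δ + s) : ℕ) : ℝ) := Nat.cast_nonneg _
      linarith
  have h4 : ((∑ i, (k + 1 - d i) : ℕ) : ℝ) = ∑ i, ((k + 1 - d i : ℕ) : ℝ) := by push_cast; rfl
  rw [← h4]
  refine lt_of_lt_of_le ?_ h2
  push_cast
  rw [← hu]
  calc u ^ (j + 1) * (k : ℝ) < u ^ (j + 1) * (u * ((k : ℝ) + 1 - δ - s)) :=
        mul_lt_mul_of_pos_left hcon (by positivity)
    _ ≤ u ^ (j + 1) * (u * ((k + 1 - (δ + s) : ℕ) : ℝ)) :=
        mul_le_mul_of_nonneg_left (mul_le_mul_of_nonneg_left h3 hup.le) (by positivity)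
    _ = _ := by ring

/-- From the restricted forms to the multiplication by `X 0`. -/
theorem assemble (K : Type) [Field K] (N : ℕ) (hN : 1 ≤ N) {r : ℕ} (d : Fin r → ℕ)
    (hd : ∀ i, 1 ≤ d i) (k₁ k₂ : ℕ) (hI : ∀ D < k₁, InjG K N d D) (hS : SurG K N d k₂) :
    ∃ P : MvPolynomial (Io (N + 1) d) K, P ≠ 0 ∧
      ∀ f : Fin r → MvPolynomial (Fin (N + 1)) K, (∀ i, (f i).IsHomogeneous (d i)) →
        MvPolynomial.eval (fun s : Io (N + 1) d => (f s.1).coeff s.2.1) P ≠ 0 →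
        ∀ i e : ℕ,
          (i + e < k₁ → ∀ g : MvPolynomial (Fin (N + 1)) K, g.IsHomogeneous i →
            X 0 ^ e * g ∈ Ideal.span (Set.range f) → g ∈ Ideal.span (Set.range f)) ∧
          (k₂ ≤ i + 1 → ∀ h : MvPolynomial (Fin (N + 1)) K, h.IsHomogeneous (i + e) →
            ∃ g : MvPolynomial (Fin (N + 1)) K, g.IsHomogeneous i ∧
              h - X 0 ^ e * g ∈ Ideal.span (Set.range f)) := by
  classical
  have hI' : ∀ D : Fin k₁, InjG K N d D := fun D => hI D D.2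
  choose P1 hP1 hP1' using hI'
  obtain ⟨P2, hP2, hP2'⟩ := hS
  obtain ⟨P, hP, hP'⟩ := pull_back d ((∏ D, P1 D) * P2)
    (mul_ne_zero (Finset.prod_ne_zero_iff.2 fun D _ => hP1 D) hP2)
  refine ⟨P, hP, fun f hf hfP => ?_⟩
  rw [hP' f, map_mul, map_prod] at hfP
  have hf' : ∀ i, (res K N (f i)).IsHomogeneous (d i) := fun i => res_hom (hf i)
  have hA : ∀ m < k₁, Fintype.card (Ro N m d) ≤
      Module.finrank K (ik (fun i => res K N (f i)) m) := by
    intro m hm
    exact hP1' ⟨m, hm⟩ _ hf'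
      (Finset.prod_ne_zero_iff.1 (left_ne_zero_of_mul hfP) ⟨m, hm⟩ (Finset.mem_univ _))
  have hB : ∀ m, k₂ ≤ m → homogeneousSubmodule (Fin N) K m ≤
      ik (fun i => res K N (f i)) m := by
    intro m hm
    exact ik_top_mono _ _ _ hm
      (ik_top_of_card _ _ (hP2' _ hf' (right_ne_zero_of_mul hfP)))
  intro i e
  refine ⟨fun hie g hg hg2 => ?_, fun hi h hh => ?_⟩
  · exact inj_pow hN hd hf k₁ hA i e hie g hg hg2
  · exact surj_pow hf (fun m' hm' => hB m' (by omega)) e h hh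

/-- The degrees smaller than twice the least degree. -/
theorem low (K : Type) [Field K] (N : ℕ) (hN : 1 ≤ N) {r : ℕ} (d : Fin r → ℕ)
    (hd : ∀ i, 1 ≤ d i) (D : ℕ) (hD : ∀ i, D < 2 * d i)
    (hc : ∀ i, d i ≤ D → Cond N (D - d i) (d i)) :
    ∃ P : MvPolynomial (Io (N + 1) d) K, P ≠ 0 ∧
      ∀ f : Fin r → MvPolynomial (Fin (N + 1)) K, (∀ i, (f i).IsHomogeneous (d i)) →
        MvPolynomial.eval (fun s : Io (N + 1) d => (f s.1).coeff s.2.1) P ≠ 0 →
        ∀ i e : ℕ,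
          (i + e ≤ D → (∀ j ≤ i + e, Fintype.card (Ro N j d) < (Mon N j).card) →
            ∀ g : MvPolynomial (Fin (N + 1)) K, g.IsHomogeneous i →
              X 0 ^ e * g ∈ Ideal.span (Set.range f) → g ∈ Ideal.span (Set.range f)) ∧
          ((∃ j ≤ D, j ≤ i + 1 ∧ (Mon N j).card ≤ Fintype.card (Ro N j d)) →
            ∀ h : MvPolynomial (Fin (N + 1)) K, h.IsHomogeneous (i + e) →
              ∃ g : MvPolynomial (Fin (N + 1)) K, g.IsHomogeneous i ∧
                h - X 0 ^ e * g ∈ Ideal.span (Set.range f)) := by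
  classical
  have hR : ∀ j : Fin (D + 1), ∃ P : MvPolynomial (Io N d) K, P ≠ 0 ∧
      ∀ t : Io N d → K, MvPolynomial.eval t P ≠ 0 →
        (Mx d j t).rank = min (Fintype.card (Ro N j d)) (Mon N j).card := fun j =>
    rank_eval N j r d K hN (fun i hi => subM_of_monM init_thm
      (Cond.monM hN (by have := hD i; omega) ((hc i (by omega)).mono hN (by omega))))
  choose P1 hP1 hP1' using hR
  obtain ⟨P, hP, hP'⟩ := pull_back d (∏ j, P1 j) (Finset.prod_ne_zero_iff.2 fun j _ => hP1 j)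
  refine ⟨P, hP, fun f hf hfP => ?_⟩
  rw [hP' f, map_prod] at hfP
  have hf' : ∀ i, (res K N (f i)).IsHomogeneous (d i) := fun i => res_hom (hf i)
  have hA : ∀ m ≤ D, Module.finrank K (ik (fun i => res K N (f i)) m) =
      min (Fintype.card (Ro N m d)) (Mon N m).card := by
    intro m hm
    unfold ik
    rw [hilb_thm N m r d K _ hf']
    exact hP1' ⟨m, by omega⟩ _
      (Finset.prod_ne_zero_iff.1 hfP ⟨m, by omega⟩ (Finset.mem_univ _))
  intro i e
  refine ⟨fun hie hj g hg hg2 => ?_, ?_⟩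
  · refine inj_pow hN hd hf (i + e + 1) (fun m hm => ?_) i e (by omega) g hg hg2
    rw [hA m (by omega), min_eq_left (hj m (by omega)).le]
  · rintro ⟨j, hjD, hji, hj⟩ h hh
    have htop : homogeneousSubmodule (Fin N) K j ≤ ik (fun i => res K N (f i)) j := by
      apply ik_top_of_card
      rw [hA j hjD, min_eq_right hj]
    exact surj_pow hf (fun m' hm' => ik_top_mono _ _ _ (by omega) htop) e h hh

/-- At least `3 ^ (n - 2)` forms in `n = j + 4` variables. -/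
theorem main (j : ℕ) (K : Type) [Field K] [CharZero K] (r δ : ℕ) (d : Fin r → ℕ) (u : ℝ)
    (hu0 : 3 ≤ u) (hu : u ^ (j + 2) = r) (hδ : 1 ≤ δ) (hd : ∀ i, δ ≤ d i)
    (htop : (∀ i, 3 * d i ≤ 4 * δ) ∨
      u ^ (j + 1) * (2 * δ - 1) < ∑ i, ((2 * δ - d i : ℕ) : ℝ)) :
    ∃ k₁ k₂ : ℕ, k₁ ≤ k₂ ∧
      (∀ D : ℕ, D < δ ∨ u * (D + j + 2 - δ) + j < D → D < k₁ ∨ k₂ ≤ D) ∧
      (∀ D : ℕ, u ^ (j + 1) * D < ∑ i, ((D + 1 - d i : ℕ) : ℝ) → k₂ ≤ D) ∧
      (∀ s : ℕ, (∀ i, d i ≤ δ + s) →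
        (k₂ : ℝ) ≤ k₁ + (j + 2 + s) + (2 * j + 1 + s) / (u - 1) ∧
        (2 * (j + 2).factorial * (δ - 1 + u * s) ^ (j + 3) ≤
              (u - 1) ^ (j + 3) * (δ : ℝ) ^ (j + 2) → k₁ = k₂)) ∧
      ∃ P : MvPolynomial (Io (j + 4) d) K, P ≠ 0 ∧
      ∀ f : Fin r → MvPolynomial (Fin (j + 4)) K, (∀ i, (f i).IsHomogeneous (d i)) →
        MvPolynomial.eval (fun s : Io (j + 4) d => (f s.1).coeff s.2.1) P ≠ 0 →
        ∀ i e : ℕ,
          (i + e < k₁ → ∀ g : MvPolynomial (Fin (j + 4)) K, g.IsHomogeneous i →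
            X 0 ^ e * g ∈ Ideal.span (Set.range f) → g ∈ Ideal.span (Set.range f)) ∧
          (k₂ ≤ i + 1 → ∀ h : MvPolynomial (Fin (j + 4)) K, h.IsHomogeneous (i + e) →
            ∃ g : MvPolynomial (Fin (j + 4)) K, g.IsHomogeneous i ∧
              h - X 0 ^ e * g ∈ Ideal.span (Set.range f)) := by
  classical
  have hδR : (1 : ℝ) ≤ δ := by exact_mod_cast hδ
  have hup : 0 < u := by linarith
  have htop' : u ^ (j + 1) * (2 * δ - 1) < ∑ i, ((2 * δ - d i : ℕ) : ℝ) := by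
    rcases htop with h | h
    · have h1 : ∀ i, (2 * (δ : ℝ)) / 3 ≤ ((2 * δ - d i : ℕ) : ℝ) := by
        intro i
        have h2 := h i
        have h3 : 2 * δ ≤ 3 * (2 * δ - d i) := by omega
        have h4 : ((2 * δ : ℕ) : ℝ) ≤ ((3 * (2 * δ - d i) : ℕ) : ℝ) := by exact_mod_cast h3
        push_cast at h4
        linarith
      have h2 : (r : ℝ) * ((2 * (δ : ℝ)) / 3) ≤ ∑ i, ((2 * δ - d i : ℕ) : ℝ) := by
        calc (r : ℝ) * ((2 * (δ : ℝ)) / 3) = ∑ _i : Fin r, (2 * (δ : ℝ)) / 3 := by simp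
          _ ≤ _ := Finset.sum_le_sum fun i _ => h1 i
      refine lt_of_lt_of_le ?_ h2
      rw [← hu]
      have h3 : u ^ (j + 2) * ((2 * (δ : ℝ)) / 3) = u ^ (j + 1) * (u * (2 * δ) / 3) := by ring
      rw [h3]
      refine mul_lt_mul_of_pos_left ?_ (by positivity)
      have h4 : 3 * (2 * (δ : ℝ)) ≤ u * (2 * δ) := mul_le_mul_of_nonneg_right hu0 (by linarith)
      linarith
    · exact h
  -- generic behaviour in one degree
  have hSur : ∀ D : ℕ, u ^ (j + 1) * D < ∑ i, ((D + 1 - d i : ℕ) : ℝ) → SurG K (j + 3) d D :=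
    fun D hD => emp_each j K r u hu0 hu d D hD
  have hInj : ∀ D : ℕ, (D < δ ∨ u * (D + j + 2 - δ) + j < D) → InjG K (j + 3) d D := by
    intro D hD
    rcases lt_or_ge D δ with h | h
    · exact injG_small K (j + 3) d D fun i => lt_of_lt_of_le h (hd i)
    · have hD' : u * (D + j + 2 - δ) + j < D := by
        rcases hD with h' | h'
        · omega
        · exact h'
      refine ind_each j K r u hu0 hu d D (D + 1 - δ) (fun i => by have := hd i; omega) ?_
      rw [Nat.cast_sub (by omega)]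
      push_cast
      have e1 : u * ((D : ℝ) + 1 - δ + j + 1) + j = u * (D + j + 2 - δ) + j := by ring
      rw [e1]
      exact hD'
  have hS0 : SurG K (j + 3) d (2 * δ - 1) := by
    apply hSur
    have e1 : ∀ i, 2 * δ - 1 + 1 - d i = 2 * δ - d i := fun i => by omega
    simp only [e1]
    rw [Nat.cast_sub (by omega)]
    push_cast
    exact htop'
  have hex : ∃ D, SurG K (j + 3) d D := ⟨_, hS0⟩
  obtain ⟨k₂, hk₂, hmin₂⟩ : ∃ k, SurG K (j + 3) d k ∧ ∀ m < k, ¬ SurG K (j + 3) d m :=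
    ⟨Nat.find hex, Nat.find_spec hex, fun m hm => Nat.find_min hex hm⟩
  have hk₂top : k₂ ≤ 2 * δ - 1 := by
    by_contra h
    exact hmin₂ _ (by omega) hS0
  have hex1 : ∃ D, ¬ InjG K (j + 3) d D ∨ k₂ ≤ D := ⟨k₂, Or.inr le_rfl⟩
  obtain ⟨k₁, hk₁, hmin₁⟩ : ∃ k, (¬ InjG K (j + 3) d k ∨ k₂ ≤ k) ∧
      ∀ m < k, ¬ (¬ InjG K (j + 3) d m ∨ k₂ ≤ m) :=
    ⟨Nat.find hex1, Nat.find_spec hex1, fun m hm => Nat.find_min hex1 hm⟩
  have h12 : k₁ ≤ k₂ := by
    by_contra h
    exact hmin₁ k₂ (by omega) (Or.inr le_rfl)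
  -- if the numbers are different
  have hne : k₁ < k₂ → δ ≤ k₁ ∧ (k₁ : ℝ) ≤ u * (k₁ + j + 2 - δ) + j := by
    intro h
    have h1 : ¬ InjG K (j + 3) d k₁ := by
      rcases hk₁ with h1 | h1
      · exact h1
      · omega
    refine ⟨?_, ?_⟩
    · by_contra h2
      exact h1 (hInj k₁ (Or.inl (by omega)))
    · by_contra h2
      exact h1 (hInj k₁ (Or.inr (not_le.1 h2)))
  have hneg : ∀ D < k₂, ¬ u ^ (j + 1) * D < ∑ i, ((D + 1 - d i : ℕ) : ℝ) :=
    fun D hD h => hmin₂ D hD (hSur D h)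
  refine ⟨k₁, k₂, h12, ?_, ?_, ?_, ?_⟩
  · intro D hD
    by_contra hcon
    push Not at hcon
    obtain ⟨hc1, hc2⟩ := hcon
    obtain ⟨h1, h2⟩ := hne (by omega)
    rcases hD with hD | hD
    · omega
    · have h3 : ((k₁ : ℕ) : ℝ) ≤ D := by exact_mod_cast hc1
      have h4 : 1 * ((D : ℝ) - k₁) ≤ u * (D - k₁) :=
        mul_le_mul_of_nonneg_right (by linarith) (by linarith)
      nlinarith
  · intro D hD
    by_contra hcon
    exact hneg D (by omega) hD
  · intro s hs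
    have hu1 : 0 < u - 1 := by linarith
    refine ⟨?_, fun hcond => ?_⟩
    · rcases h12.eq_or_lt with h | h
      · rw [← h]
        have hp : 0 ≤ (2 * (j : ℝ) + 1 + s) / (u - 1) := by positivity
        have hp2 : (0 : ℝ) ≤ (j : ℝ) + 2 + s := by positivity
        linarith
      · obtain ⟨h1, h2⟩ := hne h
        have h3 := exc_of (k := k₂ - 1) hup hu hd hs (hneg (k₂ - 1) (by omega))
        rw [Nat.cast_sub (by omega)] at h3
        push_cast at h3
        have h4 : (u - 1) * (k₂ : ℝ) ≤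
            (u - 1) * (k₁ + (j + 2 + s) + (2 * j + 1 + s) / (u - 1)) := by
          have h5 : (u - 1) * ((2 * (j : ℝ) + 1 + s) / (u - 1)) = 2 * j + 1 + s := by
            field_simp
          rw [mul_add, h5]
          nlinarith
        exact le_of_mul_le_mul_left h4 hu1
    · by_contra hcon
      have h : k₁ < k₂ := lt_of_le_of_ne h12 hcon
      obtain ⟨h1, -⟩ := hne h
      have h3 := exc_of (k := k₁) hup hu hd hs (hneg k₁ h)
      have h4 : (u - 1) * ((k₁ + 1 - δ : ℕ) : ℝ) ≤ δ - 1 + u * s := by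
        rw [Nat.cast_sub (by omega)]
        push_cast
        linarith
      have h5 : ∀ i, d i ≤ k₁ → Cond (j + 3) (k₁ - d i) (d i) := by
        intro i hi
        have h6 := FroTwo.cond (j := j) (m := k₁ + 1 - δ) (a := d i) (by omega) (by linarith) h4
          (hd i) hcond
        exact h6.mono (by omega) (by have := hd i; omega)
      rcases cond_or K (j + 3) (by omega) d k₁ (fun i => by have := hd i; omega) h5 with h6 | h6
      · rcases hk₁ with h7 | h7
        · exact h7 h6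
        · omega
      · exact hmin₂ k₁ h h6
  · exact assemble K (j + 3) (by omega) d (fun i => hδ.trans (hd i)) k₁ k₂
      (fun D hD => by
        by_contra h
        exact hmin₁ D hD (Or.inl h)) hk₂

end Pool.Agent.TH401.WL
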